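import Pool.Agent.Y522.NA.StmP
import Pool.Agent.Y655.NA.Loc

/-!
# NP-Loc: the local theorem for nearly affine maps with a parameter
(adapted from `Pool.Agent.Y655.NA.Loc`)
-/

set_option autoImplicit false

open Set Filter Topology Metric Function MeasureTheory
open scoped Manifold ContDiff

noncomputable section

namespace Pool.Agent.Y809.NA

open Pool.Agent.Y522 Pool.Agent.Y522.NA Pool.Agent.Y655.NA

lemma ev_par {t₀ : ℝ} {P : ℝ → Prop} (h : ∀ᶠ t in 𝓝 t₀, P t) :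
    ∃ ρ : ℝ, 0 < ρ ∧ ∀ t : ℝ, |t - t₀| < ρ → P t := by
  obtain ⟨ρ, hρ, h1⟩ := Metric.eventually_nhds_iff.1 h
  exact ⟨ρ, hρ, fun t ht => h1 (by rwa [Real.dist_eq])⟩

lemma ev_ball2 {n : ℕ} {t₀ : ℝ} {P : ℝ × E n → Prop} (h : ∀ᶠ w in 𝓝 (t₀, (0 : E n)), P w) :
    ∃ ρ : ℝ, 0 < ρ ∧ ∀ (t : ℝ) (z : E n), |t - t₀| < ρ → ‖z‖ < ρ → P (t, z) := by
  obtain ⟨ρ, hρ, h1⟩ := Metric.eventually_nhds_iff.1 h
  refine ⟨ρ, hρ, fun t z ht hz => h1 ?_⟩
  rw [Prod.dist_eq]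
  refine max_lt ?_ ?_
  · show dist t t₀ < ρ
    rwa [Real.dist_eq]
  · show dist z 0 < ρ
    rwa [dist_zero_right]

/-- NP-Loc -/
theorem locP (hG : StGrowP) (hT : StTermP) : StLocP := by
  intro n κ
  obtain ⟨C, hC, hT⟩ := hT n κ
  obtain ⟨ε₁, hε₁, hG⟩ := hG n
  have hδ : 0 < 1 / (8 * C) := by positivity
  obtain ⟨ε, hε⟩ : ∃ ε, ε = min ε₁ (min 1 (1 / (8 * C))) := ⟨_, rfl⟩
  have hε0 : 0 < ε := by
    rw [hε]
    exact lt_min hε₁ (lt_min one_pos hδ)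
  have hεa : ε ≤ ε₁ := by rw [hε]; exact min_le_left _ _
  have hεb : ε ≤ 1 := by rw [hε]; exact (min_le_right _ _).trans (min_le_left _ _)
  have hεc : ε ≤ 1 / (8 * C) := by rw [hε]; exact (min_le_right _ _).trans (min_le_right _ _)
  have hCε : C * (ε + 1 / (8 * C)) ≤ 1 / 4 := by
    have h1 : C * (1 / (8 * C)) = 1 / 8 := by field_simp
    have h2 := mul_le_mul_of_nonneg_left hεc hC.le
    rw [mul_add]
    linarith
  refine ⟨ε, hε0, ?_⟩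
  intro q K g t₀ E0 Ψ T S y χ hg hN hE0 hΨ hinv hTr hχ hsum
  by_cases hn : n = 0
  · subst hn
    exact ⟨1, 1, one_pos, one_pos, fun t _ z _ c _ _ => loc_zero (g t) E0 Ψ T S χ c z⟩
  have hK : Nonempty (Fin K) := by
    by_contra hcon
    rw [not_nonempty_iff] at hcon
    have h1 := hsum.self_of_nhds
    simp at h1
  have hκ : 0 < κ := by
    obtain ⟨j⟩ := hK
    exact kap_pos hn (hTr j)
  obtain ⟨ρN, hρN, hNev⟩ := hN
  obtain ⟨ρS, hρS, hNS⟩ := ev_par hNev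
  choose ρT cT C' hρT hcT hTm using fun j =>
    hT q g t₀ E0 (T j) (S j) (y j) hg hE0 (hTr j) (1 / (8 * C)) hδ
  obtain ⟨jρ, hjρ⟩ := Finite.exists_min ρT
  obtain ⟨jc, hjc⟩ := Finite.exists_min cT
  -- bounds
  have hE0' : ContDiffAt ℝ ∞ E0 (g t₀ 0) := hE0.self_of_nhds
  have hΨ' : ContDiffAt ℝ ∞ Ψ (E0 (g t₀ 0)) := hΨ.self_of_nhds
  obtain ⟨B, hB0, hB⟩ := ev_bound (hE0'.fderiv_right (m := 0) (by simp)).continuousAt
  obtain ⟨Λ0, hΛ00, hΛ0⟩ := ev_bound (hΨ'.fderiv_right (m := 0) (by simp)).continuousAt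
  obtain ⟨Λ, t, ht, hlip⟩ := (hΨ'.fderiv_right (m := 1) (by
    norm_cast)).exists_lipschitzOnWith
  obtain ⟨r, hr, hball⟩ := Metric.eventually_nhds_iff.1 ((hΨ.and hΛ0).and ht)
  have hinv' := inv_fderiv hE0 hΨ hinv
  have hg0 : ContinuousAt (fun w : ℝ × E n => g w.1 w.2) (t₀, 0) := hg.self_of_nhds
  have hnear : ∀ᶠ w in 𝓝 (g t₀ 0), dist (E0 w) (E0 (g t₀ 0)) < r / 2 :=
    hE0'.continuousAt.eventually (Metric.ball_mem_nhds _ (by positivity))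
  have hP : ∀ᶠ w in 𝓝 (t₀, (0 : E n)), ‖fderiv ℝ E0 (g w.1 w.2)‖ ≤ B ∧
      (∀ v, fderiv ℝ Ψ (E0 (g w.1 w.2)) (fderiv ℝ E0 (g w.1 w.2) v) = v) ∧
      dist (E0 (g w.1 w.2)) (E0 (g t₀ 0)) < r / 2 :=
    hg0.eventually (hB.and (hinv'.and hnear))
  obtain ⟨ρP, hρP, hP'⟩ := ev_ball2 hP
  choose Bχ hBχ0 hBχ using fun j =>
    ev_bound ((hχ j).self_of_nhds.1.fderiv_right (m := 0) (by simp)).continuousAt
  obtain ⟨Cχ, hCχ⟩ : ∃ Cχ, Cχ = ∑ j, Bχ j := ⟨_, rfl⟩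
  have hCχ0 : 0 ≤ Cχ := by rw [hCχ]; exact Finset.sum_nonneg fun j _ => (hBχ0 j).le
  obtain ⟨ρQ, hρQ, hQ⟩ := ev_ball (((eventually_all.2 hχ).and
    (eventually_all.2 hBχ)).and hsum.eventually_nhds)
  -- constants
  obtain ⟨Cd, hCd⟩ : ∃ Cd, Cd = (∑ j, |C' j|) + 1 := ⟨_, rfl⟩
  have hCd0 : 0 < Cd := by
    rw [hCd]
    have : 0 ≤ ∑ j, |C' j| := Finset.sum_nonneg fun j _ => abs_nonneg _
    linarith
  have hCdj : ∀ j, C' j ≤ Cd := by
    intro j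
    have h1 := Finset.single_le_sum (f := fun j => |C' j|) (fun j _ => abs_nonneg _)
      (Finset.mem_univ j)
    have h2 := le_abs_self (C' j)
    rw [hCd]
    linarith
  obtain ⟨C5, hC5⟩ : ∃ C5, C5 = (Λ : ℝ) * (B * C + Cd) := ⟨_, rfl⟩
  obtain ⟨C6, hC6⟩ : ∃ C6, C6 = Cd * (1 + Cχ) := ⟨_, rfl⟩
  obtain ⟨C7, hC7⟩ : ∃ C7, C7 = 2 * C5 * B + Λ0 * C6 := ⟨_, rfl⟩
  have hBC : 0 < B * C + Cd := by positivity
  have hC50 : 0 ≤ C5 := by rw [hC5]; positivity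
  have hC60 : 0 ≤ C6 := by rw [hC6]; positivity
  have hC70 : 0 ≤ C7 := by rw [hC7]; positivity
  obtain ⟨θ, hθ⟩ : ∃ θ, θ = min 1 (min (r / (4 * (B * C + Cd))) (1 / (8 * (C7 + 1)))) := ⟨_, rfl⟩
  have hθ0 : 0 < θ := by
    rw [hθ]
    exact lt_min one_pos (lt_min (by positivity) (by positivity))
  have hθ1 : θ ≤ 1 := by rw [hθ]; exact min_le_left _ _
  have hθ2 : θ ≤ r / (4 * (B * C + Cd)) := by
    rw [hθ]; exact (min_le_right _ _).trans (min_le_left _ _)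
  have hθ3 : θ ≤ 1 / (8 * (C7 + 1)) := by
    rw [hθ]; exact (min_le_right _ _).trans (min_le_right _ _)
  obtain ⟨ρG, cG, hρG, hcG, hGr⟩ := hG g t₀ ρN hρN hg
    (hNev.mono fun t ht => naff_mono ht hεa le_rfl) (2 * κ * θ) (by positivity)
  refine ⟨min ρS (min ρP (min ρN (min ρQ (min ρG (ρT jρ))))),
    min 1 (min (cT jc) (min (cG / (2 * κ)) (min (ρN / (4 * κ)) (1 / (8 * (Cχ * C + 1)))))),
    lt_min hρS (lt_min hρP (lt_min hρN (lt_min hρQ (lt_min hρG (hρT jρ))))),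
    lt_min one_pos (lt_min (hcT jc) (lt_min (by positivity) (lt_min (by positivity)
      (by positivity)))), ?_⟩
  intro t ht' z hz c hc hcc
  have ht2 := ht'
  simp only [lt_min_iff] at ht2
  obtain ⟨ht3, ht4, -, -, ht5, ht6⟩ := ht2
  have hN := hNS t ht3
  simp only [le_min_iff] at hcc
  obtain ⟨hc1, hc2, hc3, hc4, hc5⟩ := hcc
  have hκc : 2 * |κ| * c = 2 * κ * c := by rw [abs_of_pos hκ]
  have hrpos : 0 < 2 * |κ| * c := by rw [hκc]; positivity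
  have hrN : 2 * |κ| * c < ρN := by
    rw [hκc]
    rw [le_div_iff₀ (by positivity)] at hc4
    linarith [mul_pos hκ hc]
  have hrG : 2 * |κ| * c ≤ cG := by
    rw [hκc]
    rw [le_div_iff₀ (by positivity)] at hc3
    linarith
  have hCχc : Cχ * C * c ≤ 1 / 8 := by
    rw [le_div_iff₀ (by positivity)] at hc5
    have h1 : 0 ≤ Cχ * C := by positivity
    linarith
  -- the main estimate
  have main : ∀ z : E n, ‖z‖ < min ρS (min ρP (min ρN (min ρQ (min ρG (ρT jρ))))) →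
      ContDiffAt ℝ ∞ (Fl n q K (g t) E0 T S χ c) z ∧
      dist (Fl n q K (g t) E0 T S χ c z) (E0 (g t₀ 0)) < r ∧
      ∃ L : E n ≃L[ℝ] E n, ∀ u : E n, ‖L.symm (fderiv ℝ Ψ (Fl n q K (g t) E0 T S χ c z)
        (fderiv ℝ (Fl n q K (g t) E0 T S χ c) z u)) - u‖ ≤ 1 / 2 * ‖u‖ := by
    intro z hz
    simp only [lt_min_iff] at hz
    obtain ⟨-, hz0, hz1, hz2, hz3, hz4⟩ := hz
    obtain ⟨⟨b4, b5⟩, b6⟩ := hQ z hz2
    obtain ⟨b1, b2, b3⟩ := hP' t z ht4 hz0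
    obtain ⟨L, hL⟩ := hN z hz1 _ hrpos hrN
    obtain ⟨g1, g2⟩ := hGr t ht5 z hz3 _ hrpos hrG L (apx_mono hL hεa hrpos.le)
    have hTj : ∀ j, ContDiffAt ℝ ∞ (Term n q (g t) E0 (T j) (S j) c) z := fun j =>
      (hTm j t (ht6.trans_le (hjρ j)) z (hz4.trans_le (hjρ j)) c hc (hc2.trans (hjc j))).1
    have hTe := fun j => (hTm j t (ht6.trans_le (hjρ j)) z (hz4.trans_le (hjρ j)) c hc (hc2.trans (hjc j))).2 L ε
      hε0.le hεb hL
    obtain ⟨l, hl⟩ : ∃ l, l = ‖(L : E n →L[ℝ] E n)‖ := ⟨_, rfl⟩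
    obtain ⟨m, hm⟩ : ∃ m, m = ‖(L.symm : E n →L[ℝ] E n)‖ := ⟨_, rfl⟩
    have hl0 : 0 ≤ l := by rw [hl]; exact norm_nonneg _
    have hm0 : 0 ≤ m := by rw [hm]; exact norm_nonneg _
    have hlc0 : 0 ≤ l * c := mul_nonneg hl0 hc.le
    rw [hκc, ← hl, ← hm] at g1
    rw [hκc, ← hl] at g2
    have g1' : m * l ^ 2 * c ≤ θ := by
      have h1 : 2 * κ * (m * l ^ 2 * c) ≤ 2 * κ * θ := by
        refine le_trans (le_of_eq ?_) g1
        ring
      exact le_of_mul_le_mul_left h1 (by positivity)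
    have g2' : l * c ≤ θ := by
      have h1 : 2 * κ * (l * c) ≤ 2 * κ * θ := by
        refine le_trans (le_of_eq ?_) g2
        ring
      exact le_of_mul_le_mul_left h1 (by positivity)
    have e1 : ∀ j, ∃ (η : E n) (ξ : E q), Term n q (g t) E0 (T j) (S j) c z - E0 (g t z) =
        fderiv ℝ E0 (g t z) (L η) + ξ ∧ ‖η‖ ≤ C * c ∧
          ‖ξ‖ ≤ Cd * (‖(L : E n →L[ℝ] E n)‖ * c) ^ 2 := by
      intro j
      obtain ⟨η, ξ, k1, k2, k3⟩ := (hTe j).1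
      exact ⟨η, ξ, k1, k2, k3.trans (mul_le_mul_of_nonneg_right (hCdj j) (sq_nonneg _))⟩
    have e2 : ∀ j, ∀ u : E n, ∃ (η : E n) (ξ : E q),
        fderiv ℝ (Term n q (g t) E0 (T j) (S j) c) z u =
        fderiv ℝ E0 (g t z) (L (u + η)) + ξ ∧ ‖η‖ ≤ 1 / 4 * ‖u‖ ∧
          ‖ξ‖ ≤ Cd * ‖(L : E n →L[ℝ] E n)‖ ^ 2 * c * ‖u‖ := by
      intro j u
      obtain ⟨η, ξ, k1, k2, k3⟩ := (hTe j).2 u
      refine ⟨η, ξ, k1, k2.trans (mul_le_mul_of_nonneg_right hCε (norm_nonneg u)), k3.trans ?_⟩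
      have h1 : C' j * (‖(L : E n →L[ℝ] E n)‖ ^ 2 * c * ‖u‖) ≤
          Cd * (‖(L : E n →L[ℝ] E n)‖ ^ 2 * c * ‖u‖) :=
        mul_le_mul_of_nonneg_right (hCdj j) (by positivity)
      refine le_trans (le_of_eq ?_) (h1.trans (le_of_eq ?_)) <;> ring
    have hS1 : ∑ j, χ j z = 1 := b6.self_of_nhds
    obtain ⟨η0, ξ0, p1, p2, p3⟩ := point0 (q := q) (g t) E0
      (fun j => Term n q (g t) E0 (T j) (S j) c) χ c z L (fun j => (b4 j).2) hS1 C Cd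
      (by positivity) hCd0.le e1
    have hsm : ContDiffAt ℝ ∞ (Fl n q K (g t) E0 T S χ c) z :=
      ContDiffAt.sum fun j _ => ((b4 j).1).smul (hTj j)
    -- the distance
    have hd : ‖Fl n q K (g t) E0 T S χ c z - E0 (g t z)‖ ≤ (B * C + Cd) * (l * c) := by
      have k1 : Fl n q K (g t) E0 T S χ c z - E0 (g t z) = fderiv ℝ E0 (g t z) (L η0) + ξ0 := p1
      rw [k1]
      have k2 : ‖L η0‖ ≤ l * (C * c) := by
        rw [hl]
        exact ((L : E n →L[ℝ] E n).le_opNorm _).trans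
          (mul_le_mul_of_nonneg_left p2 (norm_nonneg _))
      have k3 : ‖fderiv ℝ E0 (g t z) (L η0)‖ ≤ B * (l * (C * c)) :=
        ((fderiv ℝ E0 (g t z)).le_opNorm _).trans (mul_le_mul b1 k2 (norm_nonneg _) hB0.le)
      have k4 : ‖ξ0‖ ≤ Cd * (l * c) := by
        rw [← hl] at p3
        refine p3.trans (mul_le_mul_of_nonneg_left ?_ hCd0.le)
        have k5 : l * c ≤ 1 := g2'.trans hθ1
        nlinarith
      refine (norm_add_le _ _).trans ((add_le_add k3 k4).trans (le_of_eq ?_))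
      ring
    have hd2 : ‖Fl n q K (g t) E0 T S χ c z - E0 (g t z)‖ ≤ r / 4 := by
      refine hd.trans ((mul_le_mul_of_nonneg_left (g2'.trans hθ2) hBC.le).trans (le_of_eq ?_))
      field_simp
    have hin : dist (Fl n q K (g t) E0 T S χ c z) (E0 (g t₀ 0)) < r := by
      have k1 := dist_triangle (Fl n q K (g t) E0 T S χ c z) (E0 (g t z)) (E0 (g t₀ 0))
      rw [dist_eq_norm (Fl n q K (g t) E0 T S χ c z) (E0 (g t z))] at k1
      linarith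
    refine ⟨hsm, hin, L, ?_⟩
    intro u
    obtain ⟨η, ξ, q1, q2, q3⟩ := point1 (q := q) (g t) E0
      (fun j => Term n q (g t) E0 (T j) (S j) c) χ c z L hc.le hc1
      (fun j => (hTj j).differentiableAt (by simp))
      (fun j => (b4 j).1.differentiableAt (by simp)) (fun j => (b4 j).2) b6 C Cd (1 / 4) Cχ
      hC.le hCd0.le (by norm_num) e1 e2 (by
        rw [hCχ]
        exact Finset.sum_le_sum fun j _ => b5 j) u
    have q1' : fderiv ℝ (Fl n q K (g t) E0 T S χ c) z u =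
        fderiv ℝ E0 (g t z) (L (u + η)) + ξ := q1
    rw [q1']
    have w0 := hball (y := E0 (g t z)) (b3.trans (by linarith))
    have w1 := hball hin
    have hlip' : ‖fderiv ℝ Ψ (Fl n q K (g t) E0 T S χ c z) - fderiv ℝ Ψ (E0 (g t z))‖ ≤
        Λ * ‖Fl n q K (g t) E0 T S χ c z - E0 (g t z)‖ := by
      rw [← dist_eq_norm, ← dist_eq_norm]
      exact hlip.dist_le_mul _ w1.2 _ w0.2
    refine point2 L (fderiv ℝ E0 (g t z)) (fderiv ℝ Ψ (E0 (g t z)))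
      (fderiv ℝ Ψ (Fl n q K (g t) E0 T S χ c z)) b2 B Λ _ Λ0 C5 c b1 hlip' w1.1.2 u η ξ C6 ?_ ?_ ?_
      ?_ ?_
    · refine q2.trans (mul_le_mul_of_nonneg_right ?_ (norm_nonneg u))
      linarith
    · rw [hC6]
      exact q3
    · rw [hC5, ← hl, mul_assoc]
      exact mul_le_mul_of_nonneg_left hd Λ.coe_nonneg
    · rw [← hl, ← hm, ← hC7]
      refine (mul_le_mul_of_nonneg_right (g1'.trans hθ3) hC70).trans ?_
      rw [div_mul_eq_mul_div, div_le_div_iff₀ (by positivity) (by norm_num)]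
      linarith
    · rw [← hl]
      exact mul_nonneg hC50 hlc0
  obtain ⟨m1, m2, L, m3⟩ := main z hz
  refine ⟨m1, ?_⟩
  have hsmΨ : ∀ z : E n, ‖z‖ < min ρS (min ρP (min ρN (min ρQ (min ρG (ρT jρ))))) →
      ContDiffAt ℝ ∞ (fun z => Ψ (Fl n q K (g t) E0 T S χ c z)) z := by
    intro z hz
    obtain ⟨k1, k2, -⟩ := main z hz
    exact ContDiffAt.comp z (hball k2).1.1 k1
  have hev : ∀ᶠ z' in 𝓝 z, ‖z'‖ < min ρS (min ρP (min ρN (min ρQ (min ρG (ρT jρ))))) :=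
    (continuous_norm.continuousAt (x := z)).eventually_lt_const hz
  have hfd : fderiv ℝ (fun z => Ψ (Fl n q K (g t) E0 T S χ c z)) z =
      (fderiv ℝ Ψ (Fl n q K (g t) E0 T S χ c z)).comp (fderiv ℝ (Fl n q K (g t) E0 T S χ c) z) :=
    fderiv_comp z ((hball m2).1.1.differentiableAt (by simp)) (m1.differentiableAt (by simp))
  obtain ⟨A, hA⟩ := equiv_of_near L (fderiv ℝ (fun z => Ψ (Fl n q K (g t) E0 T S χ c z)) z) (by
    intro u
    rw [hfd]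
    exact m3 u)
  refine LD_of_contDiffAt (hev.mono fun z' hz' => hsmΨ z' hz') A ?_
  rw [hA]
  exact ((hsmΨ z hz).differentiableAt (by simp)).hasFDerivAt

end Pool.Agent.Y809.NA
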